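import Pool.Agent.MWV.Stmts

set_option autoImplicit false

namespace Pool.Agent.MWV.H14

open Pool.Agent.Helper14_MV Pool.Agent.Helper2_MV
open Pool.Agent.MWV

theorem flat_filter (p : ℕ → Bool) (u : List ℕ) :
    u.flatMap (fun a => if p a = true then [a] else []) = u.filter p := by
  induction u with
  | nil => rfl
  | cons a u ih =>
    rw [List.flatMap_cons, ih]
    cases h : p a with
    | true => simp [h]
    | false => simp [h]

theorem nis_filter {N : ℕ} {S : List ℕ → List ℕ → Prop} (hS : Wo N S) (p : ℕ → Bool)
    {u v : List ℕ} (h : S u v) : S (u.filter p) (v.filter p) := by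
  have := hS.sub (fun a => if p a = true then [a] else []) (u := u) (v := v) (by
    intro k hk a ha
    by_cases hp : p k = true
    · simp only [hp, if_true, List.mem_singleton] at ha
      rw [ha]; exact hk
    · simp [hp] at ha) h
  rwa [flat_filter, flat_filter] at this

theorem flat_sing (g : ℕ → ℕ) (u : List ℕ) : u.flatMap (fun a => [g a]) = u.map g := by
  induction u with
  | nil => rfl
  | cons a u ih => rw [List.flatMap_cons, ih]; rfl

theorem nis_iso {N : ℕ} {S : List ℕ → List ℕ → Prop} (hS : Wo N S) {z t : ℕ}
    (hz : z % 3 ≠ 0) (ht : t % 3 ≠ 0) (hzt : z ≠ t) {v : List ℕ} (h : S [z, t, z] v) :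
    v = [z, t, z] := by
  have h1 := hS.sub (fun a => [if a = z then 1 else if a = t then 2 else 0]) (by
    intro k hk a ha
    have hkz : k ≠ z := by rintro rfl; exact hz hk
    have hkt : k ≠ t := by rintro rfl; exact ht hk
    simp only [hkz, hkt, if_false, List.mem_singleton] at ha
    rw [ha]) h
  rw [flat_sing, flat_sing] at h1
  have e1 : List.map (fun a => if a = z then 1 else if a = t then 2 else 0) [z, t, z] =
      [1, 2, 1] := by
    simp [hzt.symm]
  rw [e1] at h1
  have h2 := hS.iso _ h1
  have hg1 : ∀ a : ℕ, (if a = z then 1 else if a = t then 2 else 0) = 1 → a = z := by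
    intro a ha
    by_cases hz' : a = z
    · exact hz'
    · by_cases ht' : a = t
      · simp only [hz', ht', if_false, if_true] at ha
        rw [if_neg (by intro h; exact hz' (by rw [ht', h]))] at ha
        omega
      · simp [hz', ht'] at ha
  have hg2 : ∀ a : ℕ, (if a = z then 1 else if a = t then 2 else 0) = 2 → a = t := by
    intro a ha
    by_cases hz' : a = z
    · simp [hz'] at ha
    · by_cases ht' : a = t
      · exact ht'
      · simp [hz', ht'] at ha
  rcases v with _ | ⟨a, _ | ⟨b, _ | ⟨c, _ | ⟨d, v⟩⟩⟩⟩
  · simp at h2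
  · simp at h2
  · simp at h2
  · rw [List.map_cons, List.map_cons, List.map_cons, List.map_nil] at h2
    injection h2 with q1 h3
    injection h3 with q2 h4
    injection h4 with q3 _
    rw [hg1 a q1, hg2 b q2, hg1 c q3]
  · simp at h2

theorem nis_mem {N : ℕ} {S : List ℕ → List ℕ → Prop} (hS : Wo N S) {u v : List ℕ} (h : S u v)
    (a : ℕ) (ha : a ∈ u) : a ∈ v := by
  by_contra hv
  have h1 := hS.sub (fun c => if c = a then [0] else []) (by
    intro k _ c hc
    by_cases hk : k = a
    · simp only [hk, if_true, List.mem_singleton] at hc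
      rw [hc]
    · simp [hk] at hc) h
  have e2 : v.flatMap (fun c => if c = a then [0] else []) = [] := by
    rw [List.flatMap_eq_nil_iff]
    intro c hc
    have : c ≠ a := by rintro rfl; exact hv hc
    simp [this]
  rw [e2] at h1
  have h3 := hS.app (hS.symm h1) (hS.refl [1, 2, 1])
  rw [List.nil_append] at h3
  have h4 := hS.iso _ h3
  have h5 : u.flatMap (fun c => if c = a then [0] else []) = [] := by
    have hl := congrArg List.length h4
    rw [List.length_append] at hl
    have : (u.flatMap (fun c => if c = a then [0] else [])).length = 0 := by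
      simp only [List.length_cons, List.length_nil] at hl
      omega
    exact List.length_eq_zero_iff.1 this
  rw [List.flatMap_eq_nil_iff] at h5
  have := h5 a ha
  simp at this

theorem other (a : ℕ) : ∃ b, b % 3 ≠ 0 ∧ a ≠ b := by
  by_cases h : a = 1
  · exact ⟨2, by norm_num, by omega⟩
  · exact ⟨1, by norm_num, h⟩

theorem nis_one {N : ℕ} {S : List ℕ → List ℕ → Prop} (hS : Wo N S) {a : ℕ} (ha : a % 3 ≠ 0)
    {v : List ℕ} (h : S [a] v) : v = [a] := by
  obtain ⟨b, hb, hab⟩ := other a
  have h1 := hS.app h (hS.refl [b, a])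
  have h2 := nis_iso hS ha hb hab h1
  have h3 : v ++ [b, a] = [a] ++ [b, a] := h2
  exact List.append_cancel_right h3

theorem nis_count {N : ℕ} {S : List ℕ → List ℕ → Prop} (hS : Wo N S) {a : ℕ} (ha : a % 3 ≠ 0)
    {u v : List ℕ} (h : S u v) (hu : u.count a = 1) : v.count a = 1 := by
  have h1 := nis_filter hS (fun c => c == a) h
  rw [List.filter_beq, hu] at h1
  have h2 := nis_one hS ha h1
  rw [List.filter_beq] at h2
  have h3 := congrArg List.length h2
  simpa using h3

theorem nis : NisStmt := by
  intro N S hS
  refine ⟨fun p u v h => nis_filter hS p h, ?_, ?_, ?_⟩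
  · intro a b ha hb hab v
    refine ⟨fun h => nis_iso hS ha hb hab h, ?_, fun h => nis_one hS ha h⟩
    intro h
    have h1 := hS.app h (hS.refl [a])
    have h2 : v ++ [a] = [a, b] ++ [a] := nis_iso hS ha hb hab h1
    exact List.append_cancel_right h2
  · intro u v h a
    exact ⟨nis_mem hS h a, nis_mem hS (hS.symm h) a⟩
  · intro u v a ha h
    exact ⟨nis_count hS ha h, nis_count hS ha (hS.symm h)⟩

end Pool.Agent.MWV.H14
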